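import Pool.Agent.J4H56.HT.Loop2

/-!
# MP_0a0487_an: homology classes of homoclinic loops of Anosov diffeomorphisms
-/

set_option autoImplicit false

open scoped Manifold ContDiff Topology
open Set Filter

namespace Pool.Agent.Results.MP_0a0487_an.HomologicalHomoclinicLoops

open Pool.Agent.H721R2 Pool.Agent.H789R2.AN Pool.Agent.W740.TC Pool.Agent.J4H56.HT
open Pool.Agent.H779R2.To (IsToral HypMat)

/-- **Anosov diffeomorphisms whose homoclinic loops are seen by a hyperbolic part of the first
homology live on manifolds covered by Euclidean space.**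
Let `f` be a `C¹` Anosov diffeomorphism of a closed connected manifold `M` modelled on `E`.

(1) Let `φ : M → ℝᵏ/ℤᵏ` be continuous and let `A` be a unimodular integer `k × k` matrix without
eigenvalues of modulus one such that `φ ∘ f` is homotopic to `A ∘ φ` (so `φ` represents an
`f`-invariant subgroup of `H¹(M; ℤ)` on which `f` acts hyperbolically; nothing is assumed on the rest
of the homology, on the fundamental group, on `k` and on the dimension of `M`).  A homoclinic point
`q` of `p` has the class `c` (`LoopClass f φ p q c`) if there are a stable path `α` and an unstable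
path `β` from `p` to `q` such that `φ` maps the loop `α · β⁻¹` to a loop of the torus with the
displacement `c`; it is a homologically trivial homoclinic partner of `p` if this holds with `c = 0`.
There is a continuous map `h` homotopic to `φ` with `h ∘ f = A ∘ h`, and for each such map `h` the
following are equivalent:
* no point has a homologically trivial homoclinic partner other than itself;
* for some `B` each point has at most `B` homologically trivial homoclinic partners;
* ONE point `x` whose forward orbit accumulates at every point of `M` has only finitely many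
  homologically trivial homoclinic partners;
* `f` is topologically transitive and for ONE periodic point `p` different homoclinic points of `p`
  have different classes;
* `f` is topologically transitive and for ONE periodic point `p` and some `B` each vector `c` is the
  class of at most `B` homoclinic points of `p`;
* the fibres of `h` are countable;
* for some `N` the fibres of `h` have at most `N` points;
* `f` is topologically transitive and `h` loses no entropy, `h_top(f) ≤ h_top(A, h(M))`.
If they hold, then `f` is topologically transitive, `f` is topologically conjugate to a hyperbolic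
automorphism of a torus (`IsToral`), and `M` is covered by Euclidean space: there is a surjective
covering map `E → M`.

(2) The following are equivalent: `f` is topologically conjugate to a hyperbolic automorphism of a
torus; there are `k`, `A` and `φ` as in (1) such that the number of homologically trivial homoclinic
partners of the points of `M` is bounded; `f` is topologically transitive and there are `k`, `A`,
`φ` as in (1), a periodic point `p` and `B` such that each vector is the class of at most `B`
homoclinic points of `p`. -/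
theorem result (E : Type*) [NormedAddCommGroup E] [NormedSpace ℝ E] [FiniteDimensional ℝ E]
    (M : Type*) [MetricSpace M] [CompactSpace M] [ConnectedSpace M]
    [ChartedSpace E M] [IsManifold 𝓘(ℝ, E) ∞ M] (f : Diffeomorph 𝓘(ℝ, E) 𝓘(ℝ, E) M M 1)
    (Es Eu : ∀ x : M, Submodule ℝ (TangentSpace 𝓘(ℝ, E) x)) (hf : IsAnosov f Es Eu) :
    (∀ (k : ℕ) (A : Matrix (Fin k) (Fin k) ℤ) (φ : C(M, Fin k → AddCircle (1 : ℝ))),
      IsUnit A.det → HypMat A →
      (φ.comp ⟨f, f.continuous⟩).Homotopic ((torusMap A).comp φ) →
      (∃ h : C(M, Fin k → AddCircle (1 : ℝ)), h.Homotopic φ ∧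
        ∀ x, h (f x) = torusMap A (h x)) ∧
      (∀ h : C(M, Fin k → AddCircle (1 : ℝ)), h.Homotopic φ →
        (∀ x, h (f x) = torusMap A (h x)) →
        List.TFAE [∀ x y, LoopClass f.toHomeomorph φ x y 0 → x = y,
          ∃ B : ℕ, ∀ x, {y | LoopClass f.toHomeomorph φ x y 0}.encard ≤ B,
          ∃ x, (∀ z, MapClusterPt z atTop fun n : ℕ => f^[n] x) ∧
            {y | LoopClass f.toHomeomorph φ x y 0}.Finite,
          TopTransitive f ∧ ∃ p ∈ Function.periodicPts f, ∀ q q' c,
            LoopClass f.toHomeomorph φ p q c → LoopClass f.toHomeomorph φ p q' c → q = q',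
          TopTransitive f ∧ ∃ p ∈ Function.periodicPts f, ∃ B : ℕ,
            ∀ c, {q | LoopClass f.toHomeomorph φ p q c}.encard ≤ B,
          ∀ y, (h ⁻¹' {y}).Countable,
          ∃ N : ℕ, ∀ y, (h ⁻¹' {y}).encard ≤ N,
          TopTransitive f ∧
            Dynamics.coverEntropy f univ ≤ Dynamics.coverEntropy (torusMap A) (range h)]) ∧
      ((∀ x y, LoopClass f.toHomeomorph φ x y 0 → x = y) →
        TopTransitive f ∧ IsToral f ∧
          ∃ q : E → M, IsCoveringMap q ∧ Function.Surjective q)) ∧
    List.TFAE [IsToral f,
      ∃ (k : ℕ) (A : Matrix (Fin k) (Fin k) ℤ) (φ : C(M, Fin k → AddCircle (1 : ℝ))),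
        IsUnit A.det ∧ HypMat A ∧ (φ.comp ⟨f, f.continuous⟩).Homotopic ((torusMap A).comp φ) ∧
        ∃ B : ℕ, ∀ x, {y | LoopClass f.toHomeomorph φ x y 0}.encard ≤ B,
      TopTransitive f ∧
        ∃ (k : ℕ) (A : Matrix (Fin k) (Fin k) ℤ) (φ : C(M, Fin k → AddCircle (1 : ℝ))),
          IsUnit A.det ∧ HypMat A ∧
          (φ.comp ⟨f, f.continuous⟩).Homotopic ((torusMap A).comp φ) ∧
          ∃ p ∈ Function.periodicPts f, ∃ B : ℕ,
            ∀ c, {q | LoopClass f.toHomeomorph φ p q c}.encard ≤ B] := by
  refine ⟨fun k A φ hdet hA hφ => ?_, ?_⟩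
  · refine ⟨man_franks f hdet hA φ hφ, fun h h1 h2 =>
      (man_all3 f Es Eu hf hdet hA φ hφ h h1 h2).1, ?_⟩
    obtain ⟨h, h1, h2⟩ := man_franks f hdet hA φ hφ
    exact (man_all3 f Es Eu hf hdet hA φ hφ h h1 h2).2
  · tfae_have 1 → 2 := by
      intro h
      obtain ⟨k, A, φ, hdet, hA, hφ, h4⟩ := man_of_toral f h
      obtain ⟨h, h1, h2⟩ := man_franks f hdet hA φ hφ
      have key := (man_all3 f Es Eu hf hdet hA φ hφ h h1 h2).1.out 0 1
      refine ⟨k, A, φ, hdet, hA, hφ, key.1 ?_⟩
      rintro x y ⟨α, β, θ, η, a1, a2, a3, a4, a5, a6, a7, a8, a9⟩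
      exact h4 x y ⟨α, β, θ, η, a1, a2, a3, a4, a5, a6, a7, a8, sub_eq_zero.mp a9⟩
    tfae_have 2 → 3 := by
      rintro ⟨k, A, φ, hdet, hA, hφ, hB⟩
      obtain ⟨h, h1, h2⟩ := man_franks f hdet hA φ hφ
      have key := (man_all3 f Es Eu hf hdet hA φ hφ h h1 h2).1.out 1 4
      obtain ⟨hT, hp⟩ := key.1 hB
      exact ⟨hT, k, A, φ, hdet, hA, hφ, hp⟩
    tfae_have 3 → 1 := by
      rintro ⟨hT, k, A, φ, hdet, hA, hφ, hp⟩
      obtain ⟨h, h1, h2⟩ := man_franks f hdet hA φ hφ
      have key := (man_all3 f Es Eu hf hdet hA φ hφ h h1 h2).1.out 4 0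
      exact ((man_all3 f Es Eu hf hdet hA φ hφ h h1 h2).2 (key.1 ⟨hT, hp⟩)).2.1
    tfae_finish

end Pool.Agent.Results.MP_0a0487_an.HomologicalHomoclinicLoops
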