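import Pool.Agent.J4H56.HT.Opn

/-!
# MP_0a0487_an: semiconjugacies that are injective on one open set, or finite-to-one on the
homoclinic points of one periodic point
-/

set_option autoImplicit false

open scoped Manifold ContDiff Topology
open Set Filter

namespace Pool.Agent.Results.MP_0a0487_an.OnePeriodicPointCovered

open Pool.Agent.H721R2 Pool.Agent.H789R2.AN Pool.Agent.TH289 Pool.Agent.TH289.K
open Pool.Agent.J4H56.HT

/-- **Semiconjugacies that are injective on ONE open set, or bounded-to-one on the homoclinic points
of ONE periodic point.**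
Let `f`, `g` be `C¹` Anosov diffeomorphisms of closed connected manifolds `M`, `M'` modelled on `E`,
`E'`, let `g` have global product structure (`GPS`: each stable path and each unstable path with the
same initial point span a rectangle; for instance `g` is a hyperbolic automorphism of an
infranilmanifold), and let `h : M → M'` be continuous with `h ∘ f = g ∘ h`.  Nothing is assumed on the
dimensions, and `h` need not be onto.  The following are equivalent:

(a) `f` is topologically transitive and `h` is injective on SOME nonempty open set;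

(b) `f` is topologically transitive and, for ONE periodic point `p` and some `B`, every fibre of `h`
contains at most `B` homoclinic points of `p` (points that are forward and backward asymptotic to `p`);

(c) for ONE point `x` whose forward orbit accumulates at every point of `M`, only finitely many points
`y` homoclinically related to `x` satisfy `h y = h x`;

(d) `f` is topologically transitive and has global product structure, and for some `N` all fibres of
`h` have at most `N` points;

(e) `f` is topologically transitive and has global product structure, and `h` is locally injective.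

If they hold, then `M` is covered by Euclidean space: there is a surjective covering map `E → M`. -/
theorem result (E : Type*) [NormedAddCommGroup E] [NormedSpace ℝ E] [FiniteDimensional ℝ E]
    (M : Type*) [MetricSpace M] [CompactSpace M] [ConnectedSpace M]
    [ChartedSpace E M] [IsManifold 𝓘(ℝ, E) ∞ M] (f : Diffeomorph 𝓘(ℝ, E) 𝓘(ℝ, E) M M 1)
    (Es Eu : ∀ x : M, Submodule ℝ (TangentSpace 𝓘(ℝ, E) x)) (hf : IsAnosov f Es Eu)
    (E' : Type*) [NormedAddCommGroup E'] [NormedSpace ℝ E'] [FiniteDimensional ℝ E']
    (M' : Type*) [MetricSpace M'] [CompactSpace M'] [ConnectedSpace M']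
    [ChartedSpace E' M'] [IsManifold 𝓘(ℝ, E') ∞ M'] (g : Diffeomorph 𝓘(ℝ, E') 𝓘(ℝ, E') M' M' 1)
    (Es' Eu' : ∀ x : M', Submodule ℝ (TangentSpace 𝓘(ℝ, E') x)) (hg : IsAnosov g Es' Eu')
    (hG : GPS g.toHomeomorph) (h : C(M, M')) (hfg : ∀ x, h (f x) = g (h x)) :
    List.TFAE [TopTransitive f ∧ ∃ U : Set M, IsOpen U ∧ U.Nonempty ∧ InjOn h U,
      TopTransitive f ∧ ∃ p ∈ Function.periodicPts f, ∃ B : ℕ,
        ∀ y, {q | Asym f p q ∧ Asym f.symm p q ∧ h q = y}.encard ≤ B,
      ∃ x, (∀ z, MapClusterPt z atTop fun n : ℕ => f^[n] x) ∧
        {y | h y = h x ∧ Asym f x y ∧ Asym f.symm x y}.Finite,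
      TopTransitive f ∧ GPS f.toHomeomorph ∧ ∃ N : ℕ, ∀ y, (h ⁻¹' {y}).encard ≤ N,
      TopTransitive f ∧ GPS f.toHomeomorph ∧ ∀ x, ∃ U ∈ 𝓝 x, InjOn h U] ∧
    ((TopTransitive f ∧ ∃ U : Set M, IsOpen U ∧ U.Nonempty ∧ InjOn h U) →
      ∃ π : E → M, IsCoveringMap π ∧ Function.Surjective π) := by
  have key := gen_all' f Es Eu hf g Es' Eu' hg hG h h.continuous hfg
  have k14 := key.out 0 3
  exact ⟨key, fun h1 => (man_self f Es Eu hf (k14.1 h1).2.1).2⟩

end Pool.Agent.Results.MP_0a0487_an.OnePeriodicPointCovered
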